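import Pool.Agent.H430R2.PermCubes.Defs

set_option autoImplicit false

/-!
# Three three-dimensional permutation cubes of order six that form a variational cube
-/

namespace Pool.Agent.H315.OrderSix

open Function Pool.Agent.H430R2.PermCubes

/-- the three cubes, coded in base six: the digit at place `36 a + 6 b + c` is the value at the
cell `(a, b, c)` -/
def tab : Fin 3 → ℕ := ![
  503415669754675864582776982910540247486889981028771433203056239154965649267826027266004707874403018915330927948009967389328644011315844755609789926625231363043158669790,
  971313819355690461678323364580388685923513698433076073188512313421479885410613937580305120652438454499017766144826141743705960448146678410494787238295770736037956291790,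
  744061398971923070175184905822868330138954418295243447835914058038647078454465294552592266926630479250902681583857221561590804220262262939132821167316337749003132997790]

/-- the coordinates of the cell with given values, coded in base six in the same way -/
def itab : Fin 3 → ℕ := ![
  257837252297445620650993975189177788939575084875210055204450552077628934852668930196417842009313010955052458268860067544277156282054718218743490039525782965692199536490,
  123773248280436123631907379973703575885407883097815309384106483744241605790183143027489899613778651337901338975111428613325807426647019017445965895320257135981287833590,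
  197869047435602043089061029660756706263294882111786672907206002135748836471155963028406137784815169863309629881659451917048964316523147687560589589531659244422603328790]

/-- the value of the `i`-th cube at the cell `(a, b, c)` -/
def val (i : Fin 3) (a b c : Fin 6) : Fin 6 :=
  ⟨tab i / 6 ^ (36 * a.val + 6 * b.val + c.val) % 6, Nat.mod_lt _ (by norm_num)⟩

/-- the `i`-th coordinate of the cell with values `(a, b, c)` -/
def ival (i : Fin 3) (a b c : Fin 6) : Fin 6 :=
  ⟨itab i / 6 ^ (36 * a.val + 6 * b.val + c.val) % 6, Nat.mod_lt _ (by norm_num)⟩

set_option maxRecDepth 100000 in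
theorem val_ne0 : ∀ (i : Fin 3) (b c s t : Fin 6), val i s b c = val i t b c → s = t := by
  decide +kernel

set_option maxRecDepth 100000 in
theorem val_ne1 : ∀ (i : Fin 3) (a c s t : Fin 6), val i a s c = val i a t c → s = t := by
  decide +kernel

set_option maxRecDepth 100000 in
theorem val_ne2 : ∀ (i : Fin 3) (a b s t : Fin 6), val i a b s = val i a b t → s = t := by
  decide +kernel

set_option maxRecDepth 100000 in
theorem ival_val : ∀ (a b c : Fin 6),
    ival 0 (val 0 a b c) (val 1 a b c) (val 2 a b c) = a ∧
    ival 1 (val 0 a b c) (val 1 a b c) (val 2 a b c) = b ∧
    ival 2 (val 0 a b c) (val 1 a b c) (val 2 a b c) = c := by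
  decide +kernel

/-- the three cubes -/
def cube (i : Fin 3) (x : Fin 3 → Fin 6) : Fin 6 := val i (x 0) (x 1) (x 2)

theorem cube_isPermutationCube (i : Fin 3) : IsPermutationCube 3 6 (cube i) := by
  intro j x
  rw [← Finite.injective_iff_bijective]
  intro s t h
  fin_cases j
  · have h' : val i s (x 1) (x 2) = val i t (x 1) (x 2) := by
      simpa [cube, update] using h
    exact val_ne0 i _ _ _ _ h'
  · have h' : val i (x 0) s (x 2) = val i (x 0) t (x 2) := by
      simpa [cube, update] using h
    exact val_ne1 i _ _ _ _ h'
  · have h' : val i (x 0) (x 1) s = val i (x 0) (x 1) t := by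
      simpa [cube, update] using h
    exact val_ne2 i _ _ _ _ h'

theorem cube_inj {x y : Fin 3 → Fin 6} (h : ∀ i, cube i x = cube i y) : x = y := by
  have hx := ival_val (x 0) (x 1) (x 2)
  have hy := ival_val (y 0) (y 1) (y 2)
  have h0 : val 0 (x 0) (x 1) (x 2) = val 0 (y 0) (y 1) (y 2) := h 0
  have h1 : val 1 (x 0) (x 1) (x 2) = val 1 (y 0) (y 1) (y 2) := h 1
  have h2 : val 2 (x 0) (x 1) (x 2) = val 2 (y 0) (y 1) (y 2) := h 2
  rw [h0, h1, h2] at hx
  funext i
  fin_cases i
  · exact hx.1.symm.trans hy.1
  · exact hx.2.1.symm.trans hy.2.1
  · exact hx.2.2.symm.trans hy.2.2

/-- **Three permutation cubes of dimension three and order six that form a variational cube.** -/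
theorem isVariationalSet_cube : IsVariationalSet 3 6 3 cube := by
  refine ⟨cube_isPermutationCube, fun e he => ?_⟩
  rw [← Finite.injective_iff_bijective]
  intro x y hxy
  refine cube_inj fun i => ?_
  obtain ⟨j, rfl⟩ := (Finite.injective_iff_surjective.1 he) i
  exact congrFun hxy j

end Pool.Agent.H315.OrderSix
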